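import Pool.Agent.MNW.StmtsT

set_option autoImplicit false

/-! # MNW, row BLU: the branch lemma upwards -/

namespace Pool.Agent.MNW.H74

open Pool.Agent.MNT
open scoped Classical

variable {V : Type} [Fintype V] [PartialOrder V] [OrderTop V]

/-- an element below `v` lies below a child of `v` -/
theorem below_kid (T : MNT.Tree V) (v : V) : ∀ d, d < v → ∃ c ∈ T.kids v, d ≤ c := by
  intro d
  induction d using WellFoundedGT.induction with
  | ind d ih =>
    intro hd
    have hd' : d ≠ ⊤ := hd.ne_top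
    rcases (T.par_le d v hd).eq_or_lt with h | h
    · exact ⟨d, (T.mem_kids v d).2 ⟨hd', h⟩, le_rfl⟩
    · obtain ⟨c, hc, hc2⟩ := ih (T.par d) (T.lt_par d hd') h
      exact ⟨c, hc, (T.lt_par d hd').le.trans hc2⟩

/-- the part of the tree which is not below `c` -/
theorem split (T : MNT.Tree V) (l : V → ℝ) (c : V) (hc : c ≠ ⊤) :
    ∑ d with d ≠ ⊤ ∧ ¬ d ≤ c, l d =
      ∑ e ∈ (T.kids (T.par c)).erase c, (l e + ∑ d with d < e, l d) +
        if T.par c = ⊤ then 0 else
          l (T.par c) + ∑ d with d ≠ ⊤ ∧ ¬ d ≤ T.par c, l d := by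
  have hck : c ∈ T.kids (T.par c) := (T.mem_kids _ _).2 ⟨hc, rfl⟩
  have hle : ∀ e, l e + ∑ d with d < e, l d = ∑ d, if d ≤ e then l d else 0 := by
    intro e
    rw [← Finset.sum_filter]
    have h1 : (Finset.univ.filter fun d : V => d ≤ e) =
        insert e (Finset.univ.filter fun d : V => d < e) := by
      ext d
      simp [le_iff_eq_or_lt]
    rw [h1, Finset.sum_insert (by simp)]
  have h2 : (if T.par c = ⊤ then (0 : ℝ) else
      l (T.par c) + ∑ d with d ≠ ⊤ ∧ ¬ d ≤ T.par c, l d) =
      ∑ d, if d ≠ ⊤ ∧ ¬ d < T.par c then l d else 0 := by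
    by_cases h : T.par c = ⊤
    · rw [if_pos h]
      symm
      refine Finset.sum_eq_zero fun d _ => ?_
      rw [if_neg]
      rintro ⟨h1, h2⟩
      rw [h] at h2
      exact h2 (lt_top_iff_ne_top.2 h1)
    · rw [if_neg h, ← Finset.sum_filter]
      have h1 : (Finset.univ.filter fun d : V => d ≠ ⊤ ∧ ¬ d < T.par c) =
          insert (T.par c) (Finset.univ.filter fun d : V => d ≠ ⊤ ∧ ¬ d ≤ T.par c) := by
        ext d
        simp only [Finset.mem_filter, Finset.mem_univ, true_and, Finset.mem_insert]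
        constructor
        · rintro ⟨h1, h2⟩
          by_cases h3 : d = T.par c
          · exact Or.inl h3
          · exact Or.inr ⟨h1, fun h4 => h2 (lt_of_le_of_ne h4 h3)⟩
        · rintro (h1 | ⟨h1, h2⟩)
          · rw [h1]
            exact ⟨h, lt_irrefl _⟩
          · exact ⟨h1, fun h3 => h2 h3.le⟩
      rw [h1, Finset.sum_insert (by simp)]
  rw [h2, Finset.sum_congr rfl fun e _ => hle e, Finset.sum_comm, ← Finset.sum_add_distrib,
    Finset.sum_filter]
  refine Finset.sum_congr rfl fun d _ => ?_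
  rw [← Finset.sum_filter, Finset.sum_const, nsmul_eq_mul]
  by_cases hd : d < T.par c
  · -- below the parent
    have hdt : d ≠ ⊤ := hd.ne_top
    have h5 : (if d ≠ ⊤ ∧ ¬ d < T.par c then l d else 0) = 0 := if_neg (fun h => h.2 hd)
    rw [h5, add_zero]
    obtain ⟨e, he, hde⟩ := below_kid T (T.par c) d hd
    by_cases hdc : d ≤ c
    · rw [if_neg (fun h => h.2 hdc)]
      have h3 : ((T.kids (T.par c)).erase c).filter (fun e => d ≤ e) = ∅ := by
        rw [Finset.filter_eq_empty_iff]
        intro e' he' hde'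
        rw [Finset.mem_erase] at he'
        exact he'.1 (T.kids_disj he'.2 hck hde' hdc)
      rw [h3]
      simp
    · rw [if_pos ⟨hdt, hdc⟩]
      have h3 : ((T.kids (T.par c)).erase c).filter (fun e => d ≤ e) = {e} := by
        ext e'
        rw [Finset.mem_filter, Finset.mem_erase, Finset.mem_singleton]
        constructor
        · rintro ⟨⟨-, h4⟩, h5⟩
          exact T.kids_disj h4 he h5 hde
        · rintro rfl
          exact ⟨⟨fun h => hdc (h ▸ hde), he⟩, hde⟩
      rw [h3]
      simp
  · -- not below the parent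
    have h3 : ((T.kids (T.par c)).erase c).filter (fun e => d ≤ e) = ∅ := by
      rw [Finset.filter_eq_empty_iff]
      intro e' he' hde'
      rw [Finset.mem_erase, T.mem_kids] at he'
      have := T.lt_par e' he'.2.1
      rw [he'.2.2] at this
      exact hd (lt_of_le_of_lt hde' this)
    rw [h3]
    have h4 : (¬ d ≤ c) := fun h => hd (lt_of_le_of_lt h (T.lt_par c hc))
    by_cases hdt : d = ⊤
    · rw [if_neg (fun h => h.1 hdt), if_neg (fun h => h.1 hdt)]
      simp
    · rw [if_pos ⟨hdt, h4⟩, if_pos ⟨hdt, hd⟩]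
      simp

theorem blu (hBED : BedStmt) (hBLD : BldStmt) (hBEU : BeuStmt) (hMGR : MgrStmt) : BluStmt := by
  intro g m A u t k hN V _ _ _ T G a b l s r q U p Z hl hLa hR hD hW
  have hqf : ∀ x y : ℝ, 0 ≤ qf u t k x y := (hMGR u t k hN.u_pos hN.k_pos hN.psd).1
  have hmg := (hMGR u t k hN.u_pos hN.k_pos hN.psd).2
  intro c
  induction c using WellFoundedGT.induction with
  | ind c ih =>
    intro hc hmc
    obtain ⟨v, hv⟩ : ∃ v, v = T.par c := ⟨_, rfl⟩
    obtain ⟨S, hS⟩ : ∃ S, S = (T.kids v).erase c := ⟨_, rfl⟩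
    have hck : c ∈ T.kids v := (T.mem_kids _ _).2 ⟨hc, hv.symm⟩
    have hSk : ∀ d ∈ S, d ∈ T.kids v ∧ d ≠ ⊤ ∧ T.par d = v := by
      intro d hd
      rw [hS, Finset.mem_erase] at hd
      exact ⟨hd.2, (T.mem_kids _ _).1 hd.2⟩
    -- the sums over the siblings
    have hbv : b c + ∑ d ∈ S, b d ≤ b v := by
      have h1 := hLa.b_kids v
      rwa [← Finset.add_sum_erase _ _ hck, ← hS] at h1
    have hbm := hLa.b_le v
    have hsib : ∀ d ∈ S, 2 * b d ≤ m := by
      intro d hd
      have h1 : b d ≤ ∑ d ∈ S, b d := Finset.single_le_sum (fun _ _ => Nat.zero_le _) hd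
      omega
    have hkid : ∀ d ∈ S, ∀ e ∈ T.kids d, 2 * b e ≤ m := by
      intro d hd e he
      have h1 := hLa.b_kids d
      have h2 : b e ≤ ∑ e ∈ T.kids d, b e := Finset.single_le_sum (fun _ _ => Nat.zero_le _) he
      have h3 := hsib d hd
      omega
    have hbed := fun d (hd : d ∈ S) => hBED g m A u t k hN V T G a b l s r q U hl hLa hR hD d
      (hSk d hd).2.1 (hsib d hd) (hBLD g m A u t k hN V T G a b l s r q U hl hLa hR hD d
        (hkid d hd))
    have hup : v ≠ ⊤ → _ := fun hvt => hBEU g m A u t k hN V T G a b l s r q U p Z hl hLa hR hD hW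
      v hvt (by omega) (ih v (hv ▸ T.lt_par c hc) hvt (by omega))
    have hZ := hW.Z_eq c hc
    have hsp := split T l c hc
    rw [← hv, ← hS] at hZ hsp
    by_cases hG : G v
    · -- grounded
      rw [hR.r_grd c hc (hv ▸ hG), zero_mul, add_zero, hsp, hZ, mul_add, Finset.mul_sum]
      refine add_le_add (Finset.sum_le_sum fun d hd => (hbed d hd).1) ?_
      by_cases hvt : v = ⊤
      · rw [if_pos hvt, if_pos hvt, mul_zero]
      · rw [if_neg hvt, if_neg hvt]
        exact (hup hvt).1
    · -- not grounded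
      have hvt : v ≠ ⊤ := fun h => hG (h ▸ hLa.top)
      rw [if_neg hvt] at hZ hsp
      have hsum := hLa.sum_eq v hG
      have hav := hLa.even v hG
      have h1 := (hup hvt).2 hav
      have h2 : ∀ d ∈ S, _ := fun d hd => (hbed d hd).2 (hLa.kids_even v hG d (hSk d hd).1)
      have hsnn : ∀ d, 0 ≤ s d := by
        intro d
        by_cases h : G d
        · rw [hR.s_grd d h]
        · exact (hR.s_pos d h).le
      have hrnn : 0 ≤ r v := by
        by_cases h : G (T.par v)
        · rw [hR.r_grd v hvt h]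
        · exact (hR.r_pos v hvt h).le
      -- merging
      obtain ⟨ρ, hρ⟩ : ∃ ρ : Option V → ℝ, ρ = fun o => o.elim (r v + l v) fun d => s d + l d :=
        ⟨_, rfl⟩
      obtain ⟨X, hX⟩ : ∃ X : Option V → ℝ, X = fun o => o.elim (2 * (g : ℝ) + 2 - a v)
        fun d => (a d : ℝ) := ⟨_, rfl⟩
      obtain ⟨Y, hY⟩ : ∃ Y : Option V → ℝ, Y = fun o => o.elim
        ((m : ℝ) - b v - (r v / (r v + l v)) ^ 2 * p v)
        fun d => (b d : ℝ) - (s d / (s d + l d)) ^ 2 * q d := ⟨_, rfl⟩
      have hm := hmg (Option V) (Finset.insertNone S) ρ X Y (by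
        intro o ho
        rw [hρ]
        rcases o with _ | d
        · have := hl v hvt
          simp only [Option.elim]
          linarith
        · have h3 : d ∈ S := by simpa using ho
          have := hl d (hSk d h3).2.1
          have := hsnn d
          simp only [Option.elim]
          linarith)
      rw [Finset.sum_insertNone, Finset.sum_insertNone, Finset.sum_insertNone,
        Finset.sum_insertNone] at hm
      simp only [hρ, hX, hY, Option.elim] at hm
      -- the three sums
      have e1 : ((r v + l v)⁻¹ + ∑ x ∈ S, (s x + l x)⁻¹)⁻¹ = r c := by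
        have h3 := hR.r_eq c hc (hv ▸ hG)
        rw [← hv, ← hS] at h3
        rw [← inv_inv (r c), h3, add_comm (l v) (r v)]
        congr 2
        exact Finset.sum_congr rfl fun x _ => by rw [add_comm]
      have e2 : 2 * (g : ℝ) + 2 - a v + ∑ x ∈ S, (a x : ℝ) = 2 * g + 2 - a c := by
        rw [← Finset.add_sum_erase _ _ hck, ← hS] at hsum
        have h3 : (a c : ℝ) + ∑ x ∈ S, (a x : ℝ) = a v := by exact_mod_cast hsum
        linarith
      have e3 : (m : ℝ) - b v - (r v / (r v + l v)) ^ 2 * p v +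
          ∑ x ∈ S, ((b x : ℝ) - (s x / (s x + l x)) ^ 2 * q x) = m - b c - p c := by
        have h3 := hW.p_eq c hc
        rw [← hv, ← hS, if_neg hvt] at h3
        unfold rho at h3
        rw [← Finset.add_sum_erase _ _ hck, ← hS] at h3
        rw [h3, Finset.sum_sub_distrib]
        ring
      rw [e1, e2, e3] at hm
      have h3 : ∑ d ∈ S, (1 / 30 * (l d + ∑ e with e < d, l e) +
          (s d + l d) * qf u t k (a d) (b d - (s d / (s d + l d)) ^ 2 * q d)) ≤
          ∑ d ∈ S, YD g m A a b l s q U d := Finset.sum_le_sum h2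
      rw [Finset.sum_add_distrib, ← Finset.mul_sum] at h3
      rw [hsp, hZ]
      linarith

end Pool.Agent.MNW.H74
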